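import Pool.Agent.Helper93.OR.Defs
import Pool.Agent.Helper89.OP.St

/-!
# OR, block SH2: the measure of the high points of the count
-/

set_option autoImplicit false
open MeasureTheory Set Filter Topology
open Pool.Agent.Helper93.UG (zc sp)
open Pool.Agent.Helper57.NS (cnt)
open Pool.Agent.Helper56.UG (zc_mono)

namespace Pool.Agent.Helper89.OR

/-- the count is monotone -/
lemma cnt_mono {T : ℝ} (hT : 1 < T) (t : ℝ) {x y : ℝ} (hxy : x ≤ y) : cnt T t (Icc 0 x) ≤ cnt T t (Icc 0 y) := by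
  have hs := Pool.Agent.Helper89.OP.sp_pos hT
  rw [Pool.Agent.Helper89.OP.cnt_eq hs, Pool.Agent.Helper89.OP.cnt_eq hs]
  have h1 : x * sp T ≤ y * sp T := mul_le_mul_of_nonneg_right hxy hs.le
  have h2 : zc (Icc (t + 0 * sp T) (t + x * sp T)) ≤ zc (Icc (t + 0 * sp T) (t + y * sp T)) :=
    zc_mono (fun u hu => ⟨hu.1, by linarith [hu.2]⟩) subset_rfl
  exact_mod_cast h2

/-- unit intervals near the integers of a set -/
lemma unit_ivs {ℓ : ℝ} (hℓ : 1 ≤ ℓ) (S : Finset ℤ) (A : Set ℝ)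
    (h : ∀ i ∈ S, ∃ s : ℝ, (i : ℝ) - ℓ - 1 ≤ s ∧ s ≤ (i : ℝ) + ℓ ∧ Ioo s (s + 1) ⊆ A) :
    ENNReal.ofReal ((S.card : ℝ) / (20 * ℓ)) ≤ volume A := by
  classical
  choose! s h1 h2 h3 using h
  set m := ⌈2 * ℓ + 2⌉₊ with hm
  have hm1 : 2 * ℓ + 2 ≤ m := Nat.le_ceil _
  have hm2 : (m : ℝ) < 2 * ℓ + 2 + 1 := Nat.ceil_lt_add_one (by linarith)
  have hm0 : (0 : ℝ) < m := by linarith
  have hmz : (0 : ℤ) < m := by exact_mod_cast hm0
  obtain ⟨c, -, hc⟩ := Finset.exists_le_card_fiber_of_nsmul_le_card_of_maps_to (s := S) (t := Finset.Ico (0 : ℤ) m)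
    (f := fun i : ℤ => i % m) (b := (S.card : ℝ) / m)
    (fun i _ => Finset.mem_Ico.2 ⟨Int.emod_nonneg _ hmz.ne', Int.emod_lt_of_pos _ hmz⟩)
    ⟨0, Finset.mem_Ico.2 ⟨le_rfl, hmz⟩⟩ (by
      rw [Int.card_Ico, sub_zero, Int.toNat_natCast, nsmul_eq_mul, mul_div_cancel₀ _ hm0.ne'])
  set R := S.filter fun i : ℤ => i % m = c with hR
  have hdis : (R : Set ℤ).PairwiseDisjoint fun i => Ioo (s i) (s i + 1) := by
    intro i hi j hj hij
    have key : ∀ i ∈ R, ∀ j ∈ R, i < j → s i + 1 ≤ s j := by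
      intro i hi j hj hlt
      rw [hR, Finset.mem_filter] at hi hj
      have h4 : (m : ℤ) ∣ j - i := Int.ModEq.dvd (show i ≡ j [ZMOD m] from hi.2.trans hj.2.symm)
      have h5 : (m : ℤ) ≤ j - i := Int.le_of_dvd (by omega) h4
      have h6 : (m : ℝ) ≤ (j : ℝ) - i := by exact_mod_cast h5
      have h7 := h2 i hi.1
      have h8 := h1 j hj.1
      linarith
    rw [Function.onFun, Set.disjoint_left]
    intro x hx hx'
    rcases lt_or_gt_of_ne hij with hlt | hlt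
    · have := key i hi j hj hlt
      linarith [hx.2, hx'.1]
    · have := key j hj i hi hlt
      linarith [hx'.2, hx.1]
  have hvol : volume (⋃ i ∈ R, Ioo (s i) (s i + 1)) = ENNReal.ofReal (R.card : ℝ) := by
    rw [measure_biUnion_finset hdis fun i _ => measurableSet_Ioo]
    have h4 : ∀ i ∈ R, volume (Ioo (s i) (s i + 1)) = 1 := by
      intro i _
      rw [Real.volume_Ioo, add_sub_cancel_left, ENNReal.ofReal_one]
    rw [Finset.sum_congr rfl h4, Finset.sum_const, nsmul_eq_mul, mul_one, ENNReal.ofReal_natCast]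
  have hsub : (⋃ i ∈ R, Ioo (s i) (s i + 1)) ⊆ A := by
    refine iUnion₂_subset fun i hi => h3 i ?_
    rw [hR] at hi
    exact (Finset.mem_filter.1 hi).1
  refine le_trans (ENNReal.ofReal_le_ofReal ?_) (hvol.symm.le.trans (measure_mono hsub))
  refine le_trans ?_ hc
  refine div_le_div_of_nonneg_left (Nat.cast_nonneg _) hm0 ?_
  linarith

/-- SH2: the measure of the high points of the count -/
theorem sh_meas {T L e e₁ t σ V a b : ℝ} (hT : 3 ≤ T) (hL : 1 ≤ L) (he₁ : 0 < e₁) (hσ : σ = 1 ∨ σ = -1) (ha : 0 ≤ a) (hb : b ≤ L)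
    (S : Finset ℤ) (hS : ∀ i ∈ S, a + 2 * L ^ e₁ ≤ (i : ℝ) ∧ (i : ℝ) ≤ b - 2 * L ^ e₁ ∧
      ∃ x' ∈ Icc ((i : ℝ) - L ^ e₁) ((i : ℝ) + L ^ e₁), V ≤ σ * (cnt T t (Icc 0 x') - x')) :
    ENNReal.ofReal ((S.card : ℝ) / (20 * L ^ e₁)) ≤ volume {x : ℝ | x ∈ Icc a b ∧ V - 1 ≤ σ * (cnt T t (Icc 0 x) - x)} := by
  have hℓ : 1 ≤ L ^ e₁ := Real.one_le_rpow hL he₁.le
  refine unit_ivs hℓ S _ fun i hi => ?_
  obtain ⟨h1, h2, x', hx', hV⟩ := hS i hi
  rcases hσ with rfl | rfl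
  · refine ⟨x', by linarith [hx'.1], hx'.2, fun x hx => ⟨⟨by linarith [hx.1, hx'.1], by linarith [hx.2, hx'.2]⟩, ?_⟩⟩
    have h3 := cnt_mono (show 1 < T by linarith) t hx.1.le
    linarith [hx.2]
  · refine ⟨x' - 1, by linarith [hx'.1], by linarith [hx'.2], fun x hx => ⟨⟨by linarith [hx.1, hx'.1], by linarith [hx.2, hx'.2]⟩, ?_⟩⟩
    have h3 := cnt_mono (show 1 < T by linarith) t (show x ≤ x' by linarith [hx.2])
    linarith [hx.1]

end Pool.Agent.Helper89.OR
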